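import Mathlib

set_option autoImplicit false

/-!
# MP_9adac4_al, Q2: thin decompositions with no graded subalgebra isomorphic to `W` or `H`

Let `K` be a perfect field of characteristic two and `n = 2m ≥ 4`. Let `B` be a nondegenerate
alternating form on `𝔽₂^n`, and let `L` be the Lie algebra (of Kaplansky) with the basis `e_α`,
`0 ≠ α ∈ 𝔽₂^n`, and the product `[e_α, e_β] = B(α,β) e_(α+β)`.

* `L` is simple of dimension `2^n - 1`: the squares `(ad e_α)²` act on `e_γ` by `B(α,γ)`, hence
  every nonzero ideal contains some `e_γ`, and then all of them.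
* The squares `t_i = (ad e_α)²`, with `α` in the dual basis, span a torus `T` of dimension `n` of
  the 2-envelope with `T ∩ L = 0`, and `L = ⨁ K e_α` is its root space decomposition.
* The absolute toral rank is `n`: the elements of the 2-envelope are induced by derivations `D` of
  the group algebra `A` of `𝔽₂^n`, where `L = A / K`. Over the algebraic closure, a torus `T'` has
  a spanning set of common eigenvectors of `L`; choose at most `n` of them, `h_1, …, h_n`, which
  generate `A` as an algebra (by Nakayama's lemma). If `F ∈ T'` kills all `h_i`, then the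
  corresponding derivation `D` maps `h_i` to `K`, so that some `D^(2^k)`, again a derivation, kills
  all `h_i` and hence `A`; therefore `F` is nilpotent and semisimple, thus `0`. So
  `dim T' ≤ n`.
* A graded subalgebra of dimension seven corresponds to a set `S` of seven nonzero vectors such
  that `α, β ∈ S`, `B(α,β) = 1` imply `α + β ∈ S`. Such a set contains a vector orthogonal to all
  of `S`. So the subalgebra has a nonzero centre and is neither simple nor isomorphic to `W` or `H`.
-/

namespace Pool.Agent.Results.MP_9adac4_al.KaplanskyNoWH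

universe u v

section defs

variable (K : Type*) [Field K] (L : Type*) [LieRing L] [LieAlgebra K L]

/-- The 2-envelope `L_2` of a Lie algebra `L` with trivial centre (for instance a simple one) over a
field of characteristic two: the restricted Lie subalgebra of `gl(L)` generated by `ad L`, that is,
the smallest subspace of `End(L)` which contains all `ad x` and is closed under commutators and
squares. -/
def twoEnvelope : Submodule K (Module.End K L) :=
  sInf {M | (∀ x : L, LieAlgebra.ad K L x ∈ M) ∧ (∀ f ∈ M, ∀ g ∈ M, f * g - g * f ∈ M) ∧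
    ∀ f ∈ M, f * f ∈ M}

/-- A torus of `L_2`: a subspace consisting of commuting semisimple elements. -/
def IsTorus (T : Submodule K (Module.End K L)) : Prop :=
  T ≤ twoEnvelope K L ∧ (∀ f ∈ T, ∀ g ∈ T, f * g = g * f) ∧
    ∀ f ∈ T, f.IsSemisimple

/-- A thin decomposition of `L`: a torus `T` of `L_2` of dimension `n`, the largest dimension of a
torus in `L_2` (the absolute toral rank of `L`), with `T ∩ L = 0`, a basis `t_1, …, t_n` of `T` with
`t_i ^ [2] = t_i`, and a basis `e_α` of `L`, indexed by the nonzero vectors `α ∈ 𝔽_2 ^ n`, such that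
`e_α` is a weight vector with weight `α`, that is `[t_i, e_α] = α_i e_α`. -/
structure ThinDecomposition (n : ℕ) where
  /-- the toral basis of the torus -/
  t : Fin n → Module.End K L
  /-- the weight vectors -/
  e : Module.Basis {α : Fin n → ZMod 2 // α ≠ 0} K L
  linearIndependent : LinearIndependent K t
  isTorus : IsTorus K L (Submodule.span K (Set.range t))
  sq : ∀ i, t i * t i = t i
  disjoint : ∀ x : L, LieAlgebra.ad K L x ∈ Submodule.span K (Set.range t) →
    LieAlgebra.ad K L x = 0
  toralRank : ∀ T : Submodule K (Module.End K L), IsTorus K L T → Module.finrank K T ≤ n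
  weight : ∀ i α, t i (e α) = if α.1 i = 0 then 0 else e α

variable {K L}

/-- A graded subalgebra: a subalgebra of the form `⨁_{α ∈ S} K e_α` for a set `S` of nonzero
vectors. -/
def IsGraded {n : ℕ} (D : ThinDecomposition K L n) (M : LieSubalgebra K L) : Prop :=
  ∃ S : Set {α : Fin n → ZMod 2 // α ≠ 0}, M.toSubmodule = Submodule.span K (D.e '' S)

end defs

/-! ## Closed sets of seven vectors -/

namespace Seven

theorem z2 (a : ZMod 2) : a = 0 ∨ a = 1 := by
  revert a; decide

section seven

variable {V : Type*} [AddCommGroup V] [Module (ZMod 2) V] [DecidableEq V]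
  (B : V → V → ZMod 2) (hadd : ∀ a b c, B (a + b) c = B a c + B b c)
  (hcomm : ∀ a b, B a b = B b a) (hself : ∀ a, B a a = 0)

omit [DecidableEq V] in
theorem vadd (v : V) : v + v = 0 := by
  have : v + v = (2 : ZMod 2) • v := by rw [two_smul]
  rw [this]
  have h2 : (2 : ZMod 2) = 0 := by decide
  rw [h2, zero_smul]

include hadd hcomm hself

omit [Module (ZMod 2) V] [DecidableEq V] hself in
theorem addR (a b c : V) : B a (b + c) = B a b + B a c := by
  rw [hcomm, hadd, hcomm b, hcomm c]

omit [Module (ZMod 2) V] [DecidableEq V] hcomm hself in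
theorem zeroL (a : V) : B 0 a = 0 := by
  have := hadd 0 0 a
  rw [add_zero] at this
  exact left_eq_add.1 this

omit [DecidableEq V] hcomm hself in
theorem smulL (x : ZMod 2) (a b : V) : B (x • a) b = x * B a b := by
  rcases z2 x with h | h <;> subst h
  · rw [zero_smul, zeroL B hadd, zero_mul]
  · rw [one_smul, one_mul]

/-- the last vertex is isolated -/
theorem isolated (S T : Finset V) (h0 : (0 : V) ∉ S)
    (hcl : ∀ a ∈ S, ∀ b ∈ S, B a b ≠ 0 → a + b ∈ S) (hS : S.card = 7) (hTS : T ⊆ S)
    (hT : T.card = 6) (hTcl : ∀ a ∈ T, ∀ b ∈ T, B a b ≠ 0 → a + b ∈ T) :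
    ∃ d ∈ S, ∀ x ∈ S, B d x = 0 := by
  have h1 : (S \ T).card = 1 := by
    rw [Finset.card_sdiff_of_subset hTS, hS, hT]
  obtain ⟨d, hd⟩ := Finset.card_eq_one.1 h1
  have hdS : d ∈ S ∧ d ∉ T := by
    rw [← Finset.mem_sdiff, hd, Finset.mem_singleton]
  have hST : ∀ x ∈ S, x ≠ d → x ∈ T := by
    intro x hx hxd
    by_contra hxT
    have : x ∈ S \ T := Finset.mem_sdiff.2 ⟨hx, hxT⟩
    rw [hd, Finset.mem_singleton] at this
    exact hxd this
  refine ⟨d, hdS.1, fun x hx => ?_⟩
  by_contra hne
  have hxd : x ≠ d := by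
    rintro rfl
    exact hne (hself _)
  have hxT := hST x hx hxd
  have hyS := hcl d hdS.1 x hx hne
  have hyd : d + x ≠ d := by
    intro h
    have : x = 0 := by simpa using h
    exact h0 (this ▸ hx)
  have hyT := hST _ hyS hyd
  have hxy : B x (d + x) ≠ 0 := by
    rw [addR B hadd hcomm, hself, add_zero, hcomm]
    exact hne
  have := hTcl x hxT _ hyT hxy
  rw [show x + (d + x) = d + (x + x) by abel, vadd, add_zero] at this
  exact hdS.2 this

/-- the map from coordinates -/
def phi {V : Type*} [AddCommGroup V] [Module (ZMod 2) V] (a b c d : V)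
    (p : ZMod 2 × ZMod 2 × ZMod 2 × ZMod 2) : V :=
  p.1 • a + p.2.1 • b + p.2.2.1 • c + p.2.2.2 • d

omit [DecidableEq V] hadd hcomm hself in
theorem phi_add (a b c d : V) (p q : ZMod 2 × ZMod 2 × ZMod 2 × ZMod 2) :
    phi a b c d (p + q) = phi a b c d p + phi a b c d q := by
  simp only [phi, Prod.fst_add, Prod.snd_add]
  module

omit [DecidableEq V] in
theorem B_phi (a b c d : V) (p q : ZMod 2 × ZMod 2 × ZMod 2 × ZMod 2) :
    B (phi a b c d p) (phi a b c d q) =
      (p.1 * q.2.1 + p.2.1 * q.1) * B a b + (p.1 * q.2.2.1 + p.2.2.1 * q.1) * B a c +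
      (p.1 * q.2.2.2 + p.2.2.2 * q.1) * B a d + (p.2.1 * q.2.2.1 + p.2.2.1 * q.2.1) * B b c +
      (p.2.1 * q.2.2.2 + p.2.2.2 * q.2.1) * B b d +
      (p.2.2.1 * q.2.2.2 + p.2.2.2 * q.2.2.1) * B c d := by
  have hR := addR B hadd hcomm
  have hsL := smulL B hadd
  have hsR : ∀ (x : ZMod 2) (a b : V), B a (x • b) = x * B a b := by
    intro x a b
    rw [hcomm, hsL, hcomm]
  simp only [phi, hadd, hR, hsL, hsR, hself, hcomm b a, hcomm c a, hcomm d a, hcomm c b,
    hcomm d b, hcomm d c]
  ring

omit [Module (ZMod 2) V] hadd hcomm hself in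
/-- a subset given in coordinates -/
theorem image_closed (φ : (ZMod 2 × ZMod 2 × ZMod 2 × ZMod 2) → V)
    (hφ : ∀ p q, φ (p + q) = φ p + φ q)
    (G : (ZMod 2 × ZMod 2 × ZMod 2 × ZMod 2) → (ZMod 2 × ZMod 2 × ZMod 2 × ZMod 2) → ZMod 2)
    (hG : ∀ p q, B (φ p) (φ q) = G p q) (T0 : Finset (ZMod 2 × ZMod 2 × ZMod 2 × ZMod 2))
    (hT0 : ∀ p ∈ T0, ∀ q ∈ T0, G p q ≠ 0 → p + q ∈ T0) :
    ∀ a ∈ T0.image φ, ∀ b ∈ T0.image φ, B a b ≠ 0 → a + b ∈ T0.image φ := by
  intro a ha b hb hab
  obtain ⟨p, hp, rfl⟩ := Finset.mem_image.1 ha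
  obtain ⟨q, hq, rfl⟩ := Finset.mem_image.1 hb
  rw [hG] at hab
  rw [← hφ]
  exact Finset.mem_image_of_mem _ (hT0 p hp q hq hab)

/-- three mutually adjacent vertices, not on a line -/
theorem caseA (S : Finset V) (h0 : (0 : V) ∉ S)
    (hcl : ∀ a ∈ S, ∀ b ∈ S, B a b ≠ 0 → a + b ∈ S) (hS : S.card = 7) (a b c : V)
    (ha : a ∈ S) (hb : b ∈ S) (hc : c ∈ S) (hab : B a b = 1) (hac : B a c = 1) (hbc : B b c = 1)
    (hne : a + b ≠ c) : ∃ d ∈ S, ∀ x ∈ S, B d x = 0 := by
  let T0 : Finset (ZMod 2 × ZMod 2 × ZMod 2 × ZMod 2) :=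
    {(1, 0, 0, 0), (0, 1, 0, 0), (1, 1, 0, 0), (0, 0, 1, 0), (1, 0, 1, 0), (0, 1, 1, 0)}
  have hBphi := B_phi B hadd hcomm hself a b c 0
  have hz : ∀ v, B v 0 = 0 := fun v => by rw [hcomm]; exact zeroL B hadd v
  simp only [hab, hac, hbc, hz, mul_zero, add_zero, mul_one] at hBphi
  have hcl' := image_closed B (phi a b c 0) (phi_add a b c 0) _ hBphi T0 (by decide)
  have hz1 : ∀ p q : ZMod 2 × ZMod 2 × ZMod 2 × ZMod 2, p ∈ T0 → q ∈ T0 →
      phi a b c 0 p = phi a b c 0 q → p = q := by
    intro p q hp hq h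
    have e1 : ∀ r, B (phi a b c 0 p) (phi a b c 0 r) = B (phi a b c 0 q) (phi a b c 0 r) := by
      intro r; rw [h]
    simp only [hBphi] at e1
    have e2 := e1 (1, 0, 0, 0)
    have e3 := e1 (0, 1, 0, 0)
    have e4 := e1 (0, 0, 1, 0)
    by_contra hpq
    have hf : ∀ p ∈ T0, ∀ q ∈ T0,
        p.1 * 0 + p.2.1 * 1 + (p.1 * 0 + p.2.2.1 * 1) + (p.2.1 * 0 + p.2.2.1 * 0) =
        q.1 * 0 + q.2.1 * 1 + (q.1 * 0 + q.2.2.1 * 1) + (q.2.1 * 0 + q.2.2.1 * 0) →
        p.1 * 1 + p.2.1 * 0 + (p.1 * 0 + p.2.2.1 * 0) + (p.2.1 * 0 + p.2.2.1 * 1) =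
        q.1 * 1 + q.2.1 * 0 + (q.1 * 0 + q.2.2.1 * 0) + (q.2.1 * 0 + q.2.2.1 * 1) →
        p.1 * 0 + p.2.1 * 0 + (p.1 * 1 + p.2.2.1 * 0) + (p.2.1 * 1 + p.2.2.1 * 0) =
        q.1 * 0 + q.2.1 * 0 + (q.1 * 1 + q.2.2.1 * 0) + (q.2.1 * 1 + q.2.2.1 * 0) →
        p ≠ q → p + q = (1, 1, 1, 0) := by
      decide
    have h3 := hf p hp q hq e2 e3 e4 hpq
    have h4 : phi a b c 0 (p + q) = 0 := by
      rw [phi_add, h]
      exact vadd _
    rw [h3] at h4
    simp only [phi, one_smul, zero_smul, add_zero] at h4
    apply hne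
    have h5 := vadd c
    rw [← h4] at h5
    exact (add_right_cancel h5).symm
  refine isolated B hadd hcomm hself S (T0.image (phi a b c 0)) h0 hcl hS ?_ ?_ hcl'
  · intro x hx
    have hab' := hcl a ha b hb (by rw [hab]; decide)
    have hac' := hcl a ha c hc (by rw [hac]; decide)
    have hbc' := hcl b hb c hc (by rw [hbc]; decide)
    simp only [T0, Finset.image_insert, Finset.image_singleton, Finset.mem_insert,
      Finset.mem_singleton, phi, one_smul, zero_smul, add_zero, zero_add] at hx
    rcases hx with rfl | rfl | rfl | rfl | rfl | rfl <;> assumption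
  · rw [Finset.card_image_of_injOn]
    · decide
    · intro p hp q hq h
      exact hz1 p q hp hq h

/-- two orthogonal lines -/
theorem caseB (S : Finset V) (h0 : (0 : V) ∉ S)
    (hcl : ∀ a ∈ S, ∀ b ∈ S, B a b ≠ 0 → a + b ∈ S) (hS : S.card = 7) (a b c d : V)
    (ha : a ∈ S) (hb : b ∈ S) (hc : c ∈ S) (hd : d ∈ S) (hab : B a b = 1) (hcd : B c d = 1)
    (hac : B a c = 0) (hbc : B b c = 0) (had : B a d = 0) (hbd : B b d = 0) :
    ∃ d ∈ S, ∀ x ∈ S, B d x = 0 := by
  let T0 : Finset (ZMod 2 × ZMod 2 × ZMod 2 × ZMod 2) :=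
    {(1, 0, 0, 0), (0, 1, 0, 0), (1, 1, 0, 0), (0, 0, 1, 0), (0, 0, 0, 1), (0, 0, 1, 1)}
  have hBphi := B_phi B hadd hcomm hself a b c d
  simp only [hab, hcd, hac, hbc, had, hbd, mul_zero, add_zero, mul_one] at hBphi
  have hcl' := image_closed B (phi a b c d) (phi_add a b c d) _ hBphi T0 (by decide)
  refine isolated B hadd hcomm hself S (T0.image (phi a b c d)) h0 hcl hS ?_ ?_ hcl'
  · intro x hx
    have hab' := hcl a ha b hb (by rw [hab]; decide)
    have hcd' := hcl c hc d hd (by rw [hcd]; decide)
    simp only [T0, Finset.image_insert, Finset.image_singleton, Finset.mem_insert,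
      Finset.mem_singleton, phi, one_smul, zero_smul, add_zero, zero_add] at hx
    rcases hx with rfl | rfl | rfl | rfl | rfl | rfl <;> assumption
  · rw [Finset.card_image_of_injOn]
    · decide
    · intro p hp q hq h
      have e1 : ∀ r, B (phi a b c d p) (phi a b c d r) = B (phi a b c d q) (phi a b c d r) := by
        intro r
        change phi a b c d p = phi a b c d q at h
        rw [h]
      simp only [hBphi] at e1
      have e2 := e1 (0, 1, 0, 0)
      have e3 := e1 (1, 0, 0, 0)
      have e4 := e1 (0, 0, 0, 1)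
      have e5 := e1 (0, 0, 1, 0)
      simp only [mul_one, mul_zero, add_zero, zero_add] at e2 e3 e4 e5
      exact Prod.ext e2 (Prod.ext e3 (Prod.ext e4 e5))

/-- A closed set of seven vectors has an element orthogonal to all others. -/
theorem seven (S : Finset V) (h0 : (0 : V) ∉ S)
    (hcl : ∀ a ∈ S, ∀ b ∈ S, B a b ≠ 0 → a + b ∈ S) (hS : S.card = 7) :
    ∃ d ∈ S, ∀ x ∈ S, B d x = 0 := by
  by_contra hcon
  have hno : ∀ d ∈ S, ∃ x ∈ S, B d x = 1 := by
    intro d hd
    by_contra h
    apply hcon
    refine ⟨d, hd, fun x hx => ?_⟩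
    rcases z2 (B d x) with h1 | h1
    · exact h1
    · exact absurd ⟨x, hx, h1⟩ h
  have h1 : (1 : ZMod 2) ≠ 0 := by decide
  have hR := addR B hadd hcomm
  obtain ⟨a, ha⟩ : S.Nonempty := by
    rw [← Finset.card_pos, hS]; norm_num
  obtain ⟨b, hb, hab⟩ := hno a ha
  have hs : a + b ∈ S := hcl a ha b hb (by rw [hab]; exact h1)
  by_cases h : ∃ c ∈ S, c ≠ a ∧ c ≠ b ∧ c ≠ a + b ∧ (B a c = 1 ∨ B b c = 1)
  · obtain ⟨c, hc, hca, hcb, hcab, hor⟩ := h
    rcases z2 (B a c) with h3 | h3 <;> rcases z2 (B b c) with h4 | h4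
    · rw [h3, h4] at hor
      rcases hor with h | h <;> exact h1 h.symm
    · refine hcon (caseA B hadd hcomm hself S h0 hcl hS b (a + b) c hb hs hc ?_ h4 ?_ ?_)
      · rw [hR, hself, add_zero, hcomm]; exact hab
      · rw [hadd, h3, h4, zero_add]
      · rw [show b + (a + b) = a + (b + b) by abel, vadd, add_zero]
        exact hca.symm
    · refine hcon (caseA B hadd hcomm hself S h0 hcl hS a (a + b) c ha hs hc ?_ h3 ?_ ?_)
      · rw [hR, hself, zero_add]; exact hab
      · rw [hadd, h3, h4, add_zero]
      · rw [← add_assoc, vadd, zero_add]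
        exact hcb.symm
    · exact hcon (caseA B hadd hcomm hself S h0 hcl hS a b c ha hb hc hab h3 h4 hcab.symm)
  · have hor : ∀ c ∈ S, c ≠ a → c ≠ b → c ≠ a + b → B a c = 0 ∧ B b c = 0 := by
      intro c hc hca hcb hcab
      by_contra h'
      apply h
      refine ⟨c, hc, hca, hcb, hcab, ?_⟩
      rcases z2 (B a c) with h3 | h3
      · rcases z2 (B b c) with h4 | h4
        · exact absurd ⟨h3, h4⟩ h'
        · exact Or.inr h4
      · exact Or.inl h3
    obtain ⟨c, hc⟩ : (S \ {a, b, a + b}).Nonempty := by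
      rw [← Finset.card_pos]
      have := Finset.le_card_sdiff ({a, b, a + b} : Finset V) S
      have h3 : ({a, b, a + b} : Finset V).card ≤ 3 := Finset.card_le_three
      omega
    rw [Finset.mem_sdiff] at hc
    obtain ⟨hc, hc'⟩ := hc
    simp only [Finset.mem_insert, Finset.mem_singleton, not_or] at hc'
    obtain ⟨hac, hbc⟩ := hor c hc hc'.1 hc'.2.1 hc'.2.2
    obtain ⟨d, hd, hcd⟩ := hno c hc
    have hda : d ≠ a := by
      rintro rfl
      rw [hcomm, hac] at hcd
      exact h1 hcd.symm
    have hdb : d ≠ b := by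
      rintro rfl
      rw [hcomm, hbc] at hcd
      exact h1 hcd.symm
    have hdab : d ≠ a + b := by
      rintro rfl
      rw [hR, hcomm c a, hcomm c b, hac, hbc, add_zero] at hcd
      exact h1 hcd.symm
    obtain ⟨had, hbd⟩ := hor d hd hda hdb hdab
    exact hcon (caseB B hadd hcomm hself S h0 hcl hS a b c d ha hb hc hd hab hcd hac hbc had hbd)

end seven

end Seven

/-! ## A bound for tori -/

namespace Toral

section nak

variable {E A : Type*} [Field E] [CommRing A] [Algebra E A]

theorem nak_step (C : Subalgebra E A) (I : Ideal A) (h : ∀ x : A, ∃ c ∈ C, x - c ∈ I ^ 2) :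
    ∀ k : ℕ, ∀ x ∈ I ^ (k + 1), ∃ c ∈ C, c ∈ I ^ (k + 1) ∧ x - c ∈ I ^ (k + 2) := by
  intro k
  induction k with
  | zero =>
    intro x hx
    rw [zero_add, pow_one] at hx
    obtain ⟨c, hc, hxc⟩ := h x
    refine ⟨c, hc, ?_, hxc⟩
    rw [zero_add, pow_one]
    have h1 : x - c ∈ I := Ideal.pow_le_self two_ne_zero hxc
    have h2 := I.sub_mem hx h1
    rwa [sub_sub_cancel] at h2
  | succ k ih =>
    intro x hx
    rw [pow_succ] at hx
    refine Submodule.mul_induction_on hx ?_ ?_
    · intro u hu v hv
      obtain ⟨c, hc, hcI, huc⟩ := ih u hu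
      obtain ⟨d, hd, hvd⟩ := h v
      have hdI : d ∈ I := by
        have h1 : v - d ∈ I := Ideal.pow_le_self two_ne_zero hvd
        have h2 := I.sub_mem hv h1
        rwa [sub_sub_cancel] at h2
      refine ⟨c * d, C.mul_mem hc hd, ?_, ?_⟩
      · rw [pow_succ]
        exact Ideal.mul_mem_mul hcI hdI
      · have e : u * v - c * d = (u - c) * v + c * (v - d) := by ring
        rw [e]
        refine Ideal.add_mem _ ?_ ?_
        · rw [show k + 1 + 2 = (k + 2) + 1 by ring, pow_succ]
          exact Ideal.mul_mem_mul huc hv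
        · rw [show k + 1 + 2 = (k + 1) + 2 by ring, pow_add]
          exact Ideal.mul_mem_mul hcI hvd
    · intro x y hx hy
      obtain ⟨c, hc, hcI, hxc⟩ := hx
      obtain ⟨d, hd, hdI, hyd⟩ := hy
      refine ⟨c + d, C.add_mem hc hd, Ideal.add_mem _ hcI hdI, ?_⟩
      rw [add_sub_add_comm]
      exact Ideal.add_mem _ hxc hyd

theorem nak (C : Subalgebra E A) (I : Ideal A) (hI : IsNilpotent I)
    (h : ∀ x : A, ∃ c ∈ C, x - c ∈ I ^ 2) : C = ⊤ := by
  have h1 : ∀ i : ℕ, ∀ x : A, ∃ c ∈ C, x - c ∈ I ^ (i + 1 + 1) := by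
    intro i
    induction i with
    | zero => exact h
    | succ i ih =>
      intro x
      obtain ⟨c, hc, hxc⟩ := ih x
      obtain ⟨d, hd, -, hxd⟩ := nak_step C I h _ _ hxc
      refine ⟨c + d, C.add_mem hc hd, ?_⟩
      rw [← sub_sub]
      exact hxd
  obtain ⟨N, hN⟩ := hI
  rw [eq_top_iff]
  intro x _
  obtain ⟨c, hc, hxc⟩ := h1 N x
  have : I ^ (N + 1 + 1) = ⊥ := by
    rw [pow_succ, pow_succ, hN, zero_mul, zero_mul]
    rfl
  rw [this] at hxc
  have : x = c := sub_eq_zero.1 hxc
  rwa [this]

end nak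

section der

variable {E A : Type*} [Field E] [CharP E 2] [CommRing A] [Algebra E A]

theorem two0 : (2 : E) = 0 := by exact_mod_cast CharP.cast_eq_zero E 2

omit [CommRing A] [Algebra E A] in
theorem addself {M : Type*} [AddCommGroup M] [Module E M] (x : M) : x + x = 0 := by
  have : x + x = (2 : E) • x := by rw [two_smul]
  rw [this, two0, zero_smul]

/-- the square of a derivation, in characteristic two -/
def sqDer (D : Derivation E A A) : Derivation E A A :=
  Derivation.mk' ((D : A →ₗ[E] A) ∘ₗ (D : A →ₗ[E] A)) (by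
    intro a b
    simp only [LinearMap.comp_apply, Derivation.coeFn_coe, Derivation.leibniz, smul_eq_mul,
      map_add]
    have := addself (E := E) (D a * D b)
    linear_combination this)

theorem sqDer_apply (D : Derivation E A A) (a : A) : sqDer D a = D (D a) := rfl

/-- iterated squares -/
def itDer (D : Derivation E A A) : ℕ → Derivation E A A
  | 0 => D
  | k + 1 => sqDer (itDer D k)

theorem itDer_mono (D : Derivation E A A) (a : A) (k : ℕ) (h : itDer D k a = 0) (l : ℕ) :
    itDer D (k + l) a = 0 := by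
  induction l with
  | zero => exact h
  | succ l ih =>
    change sqDer (itDer D (k + l)) a = 0
    rw [sqDer_apply, ih, map_zero]

/-- the subalgebra of elements killed by some iterate -/
def killAlg (D : Derivation E A A) : Subalgebra E A where
  carrier := {a | ∃ k, itDer D k a = 0}
  mul_mem' := by
    rintro a b ⟨k, hk⟩ ⟨l, hl⟩
    refine ⟨k + l, ?_⟩
    rw [Derivation.leibniz, itDer_mono D a k hk l, add_comm k l, itDer_mono D b l hl k, smul_zero,
      smul_zero, add_zero]
  add_mem' := by
    rintro a b ⟨k, hk⟩ ⟨l, hl⟩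
    refine ⟨k + l, ?_⟩
    rw [map_add, itDer_mono D a k hk l, add_comm k l, itDer_mono D b l hl k, add_zero]
  algebraMap_mem' := by
    intro c
    exact ⟨0, (itDer D 0).map_algebraMap c⟩

end der

section bound

variable {E A L : Type*} [Field E] [CharP E 2] [CommRing A] [Algebra E A] [Module.Finite E A]
  [AddCommGroup L] [Module E L]

/-- iterated squares of an endomorphism -/
def itEnd (F : Module.End E L) : ℕ → Module.End E L
  | 0 => F
  | k + 1 => itEnd F k * itEnd F k

omit [CharP E 2] in
theorem itEnd_eig (F : Module.End E L) (s : L) (c : E) (h : F s = c • s) (k : ℕ) :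
    itEnd F k s = c ^ 2 ^ k • s := by
  induction k with
  | zero => rw [itEnd, pow_zero, pow_one, h]
  | succ k ih =>
    rw [itEnd, Module.End.mul_apply, ih, map_smul, ih, smul_smul, ← pow_add]
    congr 2
    ring

omit [Module.Finite E A] in
theorem itEnd_lift (π : A →ₗ[E] L) (F : Module.End E L) (D : Derivation E A A)
    (h : ∀ a, π (D a) = F (π a)) (k : ℕ) (a : A) : π (itDer D k a) = itEnd F k (π a) := by
  induction k generalizing a with
  | zero => exact h a
  | succ k ih => rw [itDer, sqDer_apply, ih, ih, itEnd, Module.End.mul_apply]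

theorem toral_bound (π : A →ₗ[E] L) (hπs : Function.Surjective π) (hπ1 : π 1 = 0)
    (hπk : ∀ a, π a = 0 → ∃ c : E, a = algebraMap E A c)
    (I : Ideal A) (hsq : ∀ a ∈ I, a * a = 0)
    {n : ℕ} (g : Fin n → A)
    (hg : ∀ a : A, ∃ c : E, ∃ x ∈ Submodule.span E (Set.range g), ∃ y ∈ I ^ 2,
      a = algebraMap E A c + x + y)
    (T : Submodule E (Module.End E L))
    (hT : ∀ F ∈ T, ∃ D : Derivation E A A, ∀ a, π (D a) = F (π a))
    (S : Set L) (hS : Submodule.span E S = ⊤) (heig : ∀ F ∈ T, ∀ s ∈ S, ∃ c : E, F s = c • s) :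
    Module.finrank E T ≤ n := by
  classical
  have : Module.Finite E L := Module.Finite.of_surjective π hπs
  have hπc : ∀ c : E, π (algebraMap E A c) = 0 := by
    intro c
    rw [Algebra.algebraMap_eq_smul_one, map_smul, hπ1, smul_zero]
  have hnoeth : IsNoetherianRing A := isNoetherian_of_tower E inferInstance
  have hInil : IsNilpotent I := by
    rw [Ideal.FG.isNilpotent_iff_le_nilradical ((isNoetherianRing_iff_ideal_fg A).1 hnoeth I)]
    intro a ha
    rw [mem_nilradical]
    exact ⟨2, by rw [pow_two]; exact hsq a ha⟩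
  let N : Submodule E L := ((I ^ 2).restrictScalars E).map π
  have hQ : Module.finrank E (L ⧸ N) ≤ n := by
    have h1 : Submodule.span E (Set.range fun i => N.mkQ (π (g i))) = ⊤ := by
      rw [eq_top_iff]
      intro q _
      obtain ⟨l, rfl⟩ := N.mkQ_surjective q
      obtain ⟨a, rfl⟩ := hπs l
      obtain ⟨c, x, hx, y, hy, rfl⟩ := hg a
      have h2 : N.mkQ (π y) = 0 := by
        rw [Submodule.mkQ_apply, Submodule.Quotient.mk_eq_zero]
        exact Submodule.mem_map_of_mem hy
      rw [map_add, map_add, map_add, map_add, hπc, map_zero, h2, zero_add, add_zero]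
      have h3 : (N.mkQ ∘ₗ π) x ∈ Submodule.map (N.mkQ ∘ₗ π) (Submodule.span E (Set.range g)) :=
        Submodule.mem_map_of_mem hx
      rw [Submodule.map_span, ← Set.range_comp] at h3
      exact h3
    calc Module.finrank E (L ⧸ N) = Module.finrank E (⊤ : Submodule E (L ⧸ N)) :=
          finrank_top E _ |>.symm
      _ = Module.finrank E (Submodule.span E (Set.range fun i => N.mkQ (π (g i)))) := by rw [h1]
      _ ≤ Fintype.card (Fin n) := finrank_range_le_card _
      _ = n := Fintype.card_fin n
  obtain ⟨b, hbS, hbspan, hbli⟩ := exists_linearIndependent E (N.mkQ '' S)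
  have hbtop : Submodule.span E b = ⊤ := by
    rw [hbspan, ← Submodule.map_span, hS, Submodule.map_top, Submodule.range_mkQ]
  have : Finite b := hbli.finite
  have : Fintype b := Fintype.ofFinite b
  have hbcard : Fintype.card b ≤ n := by
    refine le_trans ?_ hQ
    exact hbli.fintype_card_le_finrank
  have hch : ∀ q : b, ∃ s ∈ S, N.mkQ s = q.1 := fun q => hbS q.2
  choose s hsS hsq' using hch
  have hch2 : ∀ q : b, ∃ a : A, π a = s q := fun q => hπs _
  choose a ha using hch2
  have hs0 : ∀ q, s q ≠ 0 := by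
    intro q h0
    have := hsq' q
    rw [h0, map_zero] at this
    exact hbli.ne_zero q this.symm
  -- generation
  have hgen : Algebra.adjoin E (Set.range a) = ⊤ := by
    apply nak _ I hInil
    intro x
    have h1 : N.mkQ (π x) ∈ Submodule.span E (Set.range fun q : b => N.mkQ (π (a q))) := by
      have e : (fun q : b => N.mkQ (π (a q))) = fun q : b => (q : L ⧸ N) := by
        funext q
        rw [ha, hsq']
      rw [e, Subtype.range_coe, hbtop]
      exact Submodule.mem_top
    have h2 : (Set.range fun q : b => N.mkQ (π (a q))) = (N.mkQ ∘ₗ π) '' (Set.range a) := by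
      rw [← Set.range_comp]
      rfl
    rw [h2, ← Submodule.map_span] at h1
    obtain ⟨y, hy, hyx⟩ := h1
    have h3 : π x - π y ∈ N := by
      rw [← Submodule.Quotient.mk_eq_zero, ← Submodule.mkQ_apply, map_sub, ← hyx]
      exact sub_self _
    obtain ⟨z, hz, hzx⟩ := h3
    have h4 : π (x - y - z) = 0 := by
      rw [map_sub, map_sub, ← hzx, sub_self]
    obtain ⟨c, hc⟩ := hπk _ h4
    refine ⟨y + algebraMap E A c, ?_, ?_⟩
    · refine Subalgebra.add_mem _ ?_ (Subalgebra.algebraMap_mem _ c)
      exact Algebra.span_le_adjoin E _ hy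
    · rw [← hc]
      have e : x - (y + (x - y - z)) = z := by ring
      rw [e]
      exact hz
  -- vanishing
  have hvan : ∀ F ∈ T, (∀ q, F (s q) = 0) → F = 0 := by
    intro F hF hFs
    obtain ⟨D, hD⟩ := hT F hF
    have hker : killAlg D = ⊤ := by
      rw [eq_top_iff, ← hgen, Algebra.adjoin_le_iff]
      rintro _ ⟨q, rfl⟩
      refine ⟨1, ?_⟩
      change sqDer D (a q) = 0
      rw [sqDer_apply]
      have h1 : π (D (a q)) = 0 := by rw [hD, ha, hFs]
      obtain ⟨c, hc⟩ := hπk _ h1
      rw [hc, Derivation.map_algebraMap]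
    apply LinearMap.ext_on hS
    intro x hx
    obtain ⟨c, hc⟩ := heig F hF x hx
    obtain ⟨y, rfl⟩ := hπs x
    have hy : y ∈ killAlg D := by rw [hker]; exact Algebra.mem_top
    obtain ⟨k, hk⟩ := hy
    have h1 := itEnd_lift π F D hD k y
    rw [hk, map_zero, itEnd_eig F _ c hc] at h1
    rw [LinearMap.zero_apply, hc]
    rcases smul_eq_zero.1 h1.symm with h2 | h2
    · rw [pow_eq_zero_iff (by positivity)] at h2
      rw [h2, zero_smul]
    · rw [h2, smul_zero]
  -- functionals
  have hfun : ∀ q : b, ∃ φ : Module.Dual E L, φ (s q) ≠ 0 := by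
    intro q
    by_contra hcon
    push Not at hcon
    exact hs0 q ((Module.forall_dual_apply_eq_zero_iff E _).1 hcon)
  choose φ hφ using hfun
  let Ψ : T →ₗ[E] (b → E) :=
    { toFun := fun F q => φ q (F.1 (s q))
      map_add' := by
        intro F G
        funext q
        simp
      map_smul' := by
        intro c F
        funext q
        simp }
  have hΨ : Function.Injective Ψ := by
    rw [← LinearMap.ker_eq_bot, LinearMap.ker_eq_bot']
    intro F hF
    apply Subtype.ext
    apply hvan F.1 F.2
    intro q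
    obtain ⟨c, hc⟩ := heig F.1 F.2 (s q) (hsS q)
    have h1 : φ q (F.1 (s q)) = 0 := congrFun hF q
    rw [hc, map_smul, smul_eq_mul] at h1
    rcases mul_eq_zero.1 h1 with h2 | h2
    · rw [hc, h2, zero_smul]
    · exact absurd h2 (hφ q)
  have h1 := LinearMap.finrank_le_finrank_of_injective hΨ
  rw [Module.finrank_fintype_fun_eq_card] at h1
  exact le_trans h1 hbcard

end bound

end Toral

/-! ## The Lie algebra -/

namespace Alg

/-- the nonzero vectors of `𝔽₂^(2m)` -/
abbrev NZ (m : ℕ) : Type := {α : Fin (2 * m) → ZMod 2 // α ≠ 0}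

theorem z2 (a : ZMod 2) : a = 0 ∨ a = 1 := by
  revert a; decide

section form

variable {m : ℕ}

/-- the alternating form `B(α,β) = ∑ α_i β_(2m+1-i)` -/
def B (α β : Fin (2 * m) → ZMod 2) : ZMod 2 := ∑ i, α i * β (Fin.rev i)

theorem B_add (α β γ : Fin (2 * m) → ZMod 2) : B (α + β) γ = B α γ + B β γ := by
  simp only [B, Pi.add_apply, add_mul, Finset.sum_add_distrib]

theorem B_comm (α β : Fin (2 * m) → ZMod 2) : B α β = B β α := by
  rw [B, B, ← Equiv.sum_comp Fin.revPerm]
  apply Finset.sum_congr rfl
  intro i _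
  rw [Fin.revPerm_apply, Fin.rev_rev, mul_comm]

theorem B_addR (α β γ : Fin (2 * m) → ZMod 2) : B α (β + γ) = B α β + B α γ := by
  rw [B_comm, B_add, B_comm β, B_comm γ]

theorem B_self (α : Fin (2 * m) → ZMod 2) : B α α = 0 := by
  rw [B]
  apply Finset.sum_involution (fun i _ => Fin.rev i)
  · intro i _
    rw [Fin.rev_rev, mul_comm (α (Fin.rev i))]
    rcases z2 (α i * α (Fin.rev i)) with h | h <;> rw [h] <;> decide
  · intro i _ _ h
    have := congrArg Fin.val h
    rw [Fin.val_rev] at this
    omega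
  · intro i _
    exact Finset.mem_univ _
  · intro i _
    exact Fin.rev_rev i

theorem B_zeroR (α : Fin (2 * m) → ZMod 2) : B α 0 = 0 := by
  simp [B]

theorem B_zeroL (α : Fin (2 * m) → ZMod 2) : B 0 α = 0 := by
  simp [B]

/-- the dual basis -/
def du (i : Fin (2 * m)) : Fin (2 * m) → ZMod 2 := Pi.single (Fin.rev i) 1

theorem B_du (i : Fin (2 * m)) (γ : Fin (2 * m) → ZMod 2) : B (du i) γ = γ i := by
  rw [B, Finset.sum_eq_single (Fin.rev i)]
  · rw [du, Pi.single_eq_same, one_mul, Fin.rev_rev]
  · intro j _ hj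
    rw [du, Pi.single_eq_of_ne hj, zero_mul]
  · intro h
    exact absurd (Finset.mem_univ _) h

theorem du_ne (i : Fin (2 * m)) : du i ≠ 0 := by
  intro h
  have := congrFun h (Fin.rev i)
  rw [du, Pi.single_eq_same, Pi.zero_apply] at this
  exact absurd this (by decide)

theorem exists_B (γ : Fin (2 * m) → ZMod 2) (hγ : γ ≠ 0) : ∃ ε, B γ ε = 1 := by
  have : ∃ i, γ i ≠ 0 := by
    by_contra h
    push Not at h
    exact hγ (funext h)
  obtain ⟨i, hi⟩ := this
  refine ⟨du i, ?_⟩
  rw [B_comm, B_du]
  exact (z2 (γ i)).resolve_left hi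

theorem exists_B2 (γ δ : Fin (2 * m) → ZMod 2) (hγ : γ ≠ 0) (hδ : δ ≠ 0) :
    ∃ ε, B γ ε = 1 ∧ B δ ε = 1 := by
  obtain ⟨ε₁, h1⟩ := exists_B γ hγ
  obtain ⟨ε₂, h2⟩ := exists_B δ hδ
  rcases z2 (B δ ε₁) with h3 | h3
  · rcases z2 (B γ ε₂) with h4 | h4
    · refine ⟨ε₁ + ε₂, ?_, ?_⟩
      · rw [B_addR, h1, h4, add_zero]
      · rw [B_addR, h3, h2, zero_add]
    · exact ⟨ε₂, h4, h2⟩
  · exact ⟨ε₁, h1, h3⟩

theorem vv (α : Fin (2 * m) → ZMod 2) : α + α = 0 := by
  funext i
  rw [Pi.add_apply, Pi.zero_apply]
  rcases z2 (α i) with h | h <;> rw [h] <;> decide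

variable (K : Type*) [Field K]

/-- the form with values in `K` -/
def b (α β : Fin (2 * m) → ZMod 2) : K := if B α β = 0 then 0 else 1

theorem b_comm (α β : Fin (2 * m) → ZMod 2) : b K α β = b K β α := by
  rw [b, b, B_comm]

theorem b_self (α : Fin (2 * m) → ZMod 2) : b K α α = 0 := by
  rw [b, B_self, if_pos rfl]

theorem b_zeroL (α : Fin (2 * m) → ZMod 2) : b K 0 α = 0 := by
  rw [b, B_zeroL, if_pos rfl]

theorem b_zeroR (α : Fin (2 * m) → ZMod 2) : b K α 0 = 0 := by
  rw [b, B_zeroR, if_pos rfl]

theorem b_sq (α β : Fin (2 * m) → ZMod 2) : b K α β * b K α β = b K α β := by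
  rw [b]; split_ifs <;> simp

theorem two0 [CharP K 2] : (2 : K) = 0 := by exact_mod_cast CharP.cast_eq_zero K 2

theorem b_addR [CharP K 2] (α β γ : Fin (2 * m) → ZMod 2) :
    b K α (β + γ) = b K α β + b K α γ := by
  rw [b, b, b, B_addR]
  rcases z2 (B α β) with h | h <;> rcases z2 (B α γ) with h' | h' <;> rw [h, h']
  · simp
  · simp
  · simp
  · rw [if_pos (by decide), if_neg (by decide)]
    linear_combination -(two0 K)

theorem b_addL [CharP K 2] (α β γ : Fin (2 * m) → ZMod 2) :
    b K (α + β) γ = b K α γ + b K β γ := by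
  rw [b_comm, b_addR, b_comm K γ, b_comm K γ]

end form

section lie

variable (K : Type*) [Field K] (m : ℕ)

/-- The Lie algebra with basis `e_α`, `0 ≠ α ∈ 𝔽₂^(2m)`, and `[e_α, e_β] = B(α,β) e_(α+β)`. -/
def LB : Type _ := NZ m → K

noncomputable instance : AddCommGroup (LB K m) := inferInstanceAs (AddCommGroup (NZ m → K))

noncomputable instance : Module K (LB K m) := inferInstanceAs (Module K (NZ m → K))

/-- the basis `e_α` -/
noncomputable def eb : Module.Basis (NZ m) K (LB K m) := Pi.basisFun K (NZ m)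

instance : Module.Finite K (LB K m) := Module.Finite.of_basis (eb K m)

variable {m}

/-- `e_α`, with `e_0 = 0` -/
noncomputable def E (α : Fin (2 * m) → ZMod 2) : LB K m :=
  if h : α ≠ 0 then eb K m ⟨α, h⟩ else 0

theorem E_zero : E K (0 : Fin (2 * m) → ZMod 2) = 0 := by simp [E]

theorem E_of (α : Fin (2 * m) → ZMod 2) (h : α ≠ 0) : E K α = eb K m ⟨α, h⟩ := by
  simp only [E, h, ne_eq, not_false_eq_true, dif_pos]

theorem E_of' (α : NZ m) : E K α.1 = eb K m α := E_of K α.1 α.2

theorem repr_E (α : Fin (2 * m) → ZMod 2) (γ : NZ m) :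
    (eb K m).repr (E K α) γ = if α = γ.1 then 1 else 0 := by
  by_cases h : α = 0
  · subst h
    rw [E_zero, map_zero, Finsupp.zero_apply, if_neg γ.2.symm]
  · rw [E_of K α h, Module.Basis.repr_self, Finsupp.single_apply]
    by_cases h' : α = γ.1
    · rw [if_pos h', if_pos (Subtype.ext h')]
    · rw [if_neg h', if_neg]
      intro h2
      exact h' (congrArg Subtype.val h2)

variable (m) in
/-- the bracket -/
noncomputable def br : LB K m →ₗ[K] LB K m →ₗ[K] LB K m :=
  (eb K m).constr K fun α => (eb K m).constr K fun β => b K α.1 β.1 • E K (α.1 + β.1)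

theorem br_E (α β : Fin (2 * m) → ZMod 2) : br K m (E K α) (E K β) = b K α β • E K (α + β) := by
  by_cases hα : α = 0
  · subst hα
    rw [E_zero, map_zero, LinearMap.zero_apply, b_zeroL, zero_smul]
  · by_cases hβ : β = 0
    · subst hβ
      rw [E_zero, map_zero, b_zeroR, zero_smul]
    · rw [E_of K α hα, E_of K β hβ, br, Module.Basis.constr_basis, Module.Basis.constr_basis]

@[elab_as_elim]
theorem ind {p : LB K m → Prop} (h0 : p 0) (ha : ∀ x y, p x → p y → p (x + y))
    (hs : ∀ (c : K) x, p x → p (c • x)) (hE : ∀ α : Fin (2 * m) → ZMod 2, p (E K α))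
    (x : LB K m) : p x := by
  have hx : x ∈ Submodule.span K (Set.range (eb K m)) := by
    rw [(eb K m).span_eq]; exact Submodule.mem_top
  induction hx using Submodule.span_induction with
  | mem x hx =>
    obtain ⟨α, rfl⟩ := hx
    rw [← E_of']
    exact hE _
  | zero => exact h0
  | add x y _ _ hx hy => exact ha x y hx hy
  | smul a x _ hx => exact hs a x hx

variable [CharP K 2]

theorem addself {M : Type*} [AddCommGroup M] [Module K M] (x : M) : x + x = 0 := by
  have : x + x = (2 : K) • x := by rw [two_smul]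
  rw [this, two0, zero_smul]

omit [CharP K 2] in
theorem br_symm (x y : LB K m) : br K m x y = br K m y x := by
  revert y
  refine ind K ?_ ?_ ?_ ?_ x
  · intro y; simp
  · intro x x' hx hx' y
    rw [map_add, LinearMap.add_apply, hx, hx', map_add]
  · intro c x hx y
    rw [map_smul, LinearMap.smul_apply, hx, map_smul]
  · intro α y
    refine ind K ?_ ?_ ?_ ?_ y
    · simp
    · intro x x' hx hx'
      rw [map_add, map_add, LinearMap.add_apply, hx, hx']
    · intro c x hx
      rw [map_smul, map_smul, LinearMap.smul_apply, hx]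
    · intro β
      rw [br_E, br_E, b_comm, add_comm]

theorem br_self (x : LB K m) : br K m x x = 0 := by
  refine ind K ?_ ?_ ?_ ?_ x
  · simp
  · intro x y hx hy
    rw [map_add, map_add, LinearMap.add_apply, LinearMap.add_apply, hx, hy, br_symm K y x,
      zero_add, add_zero]
    exact addself K _
  · intro c x hx
    rw [map_smul, map_smul, LinearMap.smul_apply, hx, smul_zero, smul_zero]
  · intro α
    rw [br_E, b_self, zero_smul]

theorem br_leibniz (x y z : LB K m) :
    br K m x (br K m y z) = br K m (br K m x y) z + br K m y (br K m x z) := by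
  revert y z
  refine ind K ?_ ?_ ?_ ?_ x
  · intro y z; simp
  · intro x x' hx hx' y z
    simp only [map_add, LinearMap.add_apply, hx, hx']
    abel
  · intro c x hx y z
    simp only [map_smul, LinearMap.smul_apply, hx, smul_add]
  · intro α y
    refine ind K ?_ ?_ ?_ ?_ y
    · intro z; simp
    · intro x x' hx hx' z
      simp only [map_add, LinearMap.add_apply, hx, hx']
      abel
    · intro c x hx z
      simp only [map_smul, LinearMap.smul_apply, hx, smul_add]
    · intro β z
      refine ind K ?_ ?_ ?_ ?_ z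
      · simp
      · intro x x' hx hx'
        simp only [map_add, hx, hx']
        abel
      · intro c x hx
        simp only [map_smul, hx, smul_add]
      · intro γ
        rw [br_E, br_E, br_E, map_smul, map_smul, map_smul, LinearMap.smul_apply, br_E, br_E, br_E,
          smul_smul, smul_smul, smul_smul, add_assoc α β γ, show β + (α + γ) = α + (β + γ) by abel,
          ← add_smul, b_addR, b_addL, b_addR, b_comm K β α]
        congr 1
        linear_combination -(b K α β * b K α γ) * two0 K

noncomputable instance : LieRing (LB K m) where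
  bracket x y := br K m x y
  add_lie x y z := by change br K m (x + y) z = br K m x z + br K m y z; simp
  lie_add x y z := by change br K m x (y + z) = br K m x y + br K m x z; simp
  lie_self x := br_self K x
  leibniz_lie x y z := br_leibniz K x y z

noncomputable instance : LieAlgebra K (LB K m) where
  lie_smul c x y := by change br K m x (c • y) = c • br K m x y; simp

theorem lie_E (α β : Fin (2 * m) → ZMod 2) : ⁅E K α, E K β⁆ = b K α β • E K (α + β) := br_E K α β

theorem ad_sq (α β : Fin (2 * m) → ZMod 2) :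
    (LieAlgebra.ad K (LB K m) (E K α) * LieAlgebra.ad K (LB K m) (E K α)) (E K β) =
      b K α β • E K β := by
  rw [Module.End.mul_apply, LieAlgebra.ad_apply, LieAlgebra.ad_apply, lie_E, lie_smul, lie_E,
    smul_smul, ← add_assoc, vv, zero_add, b_addR, b_self, zero_add, b_sq]

/-- coordinates of `[e_α,[e_α,x]]` -/
theorem repr_ad_sq (α : Fin (2 * m) → ZMod 2) (x : LB K m) (γ : NZ m) :
    (eb K m).repr ⁅E K α, ⁅E K α, x⁆⁆ γ = b K α γ.1 * (eb K m).repr x γ := by
  refine ind K ?_ ?_ ?_ ?_ x
  · simp
  · intro x y hx hy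
    simp only [lie_add, map_add, Finsupp.add_apply, hx, hy, mul_add]
  · intro c x hx
    simp only [lie_smul, map_smul, Finsupp.smul_apply, hx, smul_eq_mul]
    ring
  · intro β
    have := ad_sq K α β
    rw [Module.End.mul_apply, LieAlgebra.ad_apply, LieAlgebra.ad_apply] at this
    rw [this, map_smul, Finsupp.smul_apply, repr_E, smul_eq_mul]
    by_cases h : β = γ.1
    · rw [h]
    · rw [if_neg h, mul_zero, mul_zero]

/-- an ideal is closed under projections to sets of weights -/
theorem proj (I : LieIdeal K (LB K m)) (x : LB K m) (hx : x ∈ I) (γ₀ : NZ m)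
    (s : Finset (Fin (2 * m))) : ∃ y ∈ I, ∀ γ : NZ m,
      (eb K m).repr y γ = if ∀ i ∈ s, γ.1 i = γ₀.1 i then (eb K m).repr x γ else 0 := by
  classical
  induction s using Finset.induction_on with
  | empty => exact ⟨x, hx, by simp⟩
  | insert i s hi ih =>
    obtain ⟨y, hy, hyγ⟩ := ih
    have h1 : ⁅E K (du i), ⁅E K (du i), y⁆⁆ ∈ I := lie_mem_right K _ I _ _ (lie_mem_right K _ I _ _ hy)
    rcases z2 (γ₀.1 i) with h0 | h0
    · refine ⟨y - ⁅E K (du i), ⁅E K (du i), y⁆⁆, I.sub_mem hy h1, ?_⟩
      intro γ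
      rw [map_sub, Finsupp.sub_apply, repr_ad_sq, hyγ, b, B_du]
      simp only [Finset.forall_mem_insert, h0]
      rcases z2 (γ.1 i) with h2 | h2
      · simp [h2]
      · simp [h2]
    · refine ⟨_, h1, ?_⟩
      intro γ
      rw [repr_ad_sq, hyγ, b, B_du]
      simp only [Finset.forall_mem_insert, h0]
      rcases z2 (γ.1 i) with h2 | h2
      · simp [h2]
      · simp [h2]

theorem simple (hm : 1 ≤ m) : LieAlgebra.IsSimple K (LB K m) := by
  refine ⟨?_, ?_⟩
  · intro I
    by_cases hI : I = ⊥
    · exact Or.inl hI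
    right
    obtain ⟨x, hx, hx0⟩ : ∃ x ∈ I, x ≠ 0 := by
      by_contra h
      push Not at h
      apply hI
      rw [LieSubmodule.eq_bot_iff]
      exact h
    obtain ⟨γ₀, hγ₀⟩ : ∃ γ, (eb K m).repr x γ ≠ 0 := by
      by_contra h
      push Not at h
      apply hx0
      apply (eb K m).repr.injective
      ext γ
      rw [h, map_zero, Finsupp.zero_apply]
    obtain ⟨y, hy, hyγ⟩ := proj K I x hx γ₀ Finset.univ
    have hy2 : y = (eb K m).repr x γ₀ • E K γ₀.1 := by
      apply (eb K m).repr.injective
      ext γ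
      rw [hyγ, map_smul, Finsupp.smul_apply, repr_E, smul_eq_mul]
      by_cases h : γ₀.1 = γ.1
      · have h' : γ₀ = γ := Subtype.ext h
        subst h'
        simp
      · rw [if_neg h, if_neg, mul_zero]
        intro h2
        apply h
        funext i
        exact (h2 i (Finset.mem_univ _)).symm
    have hγ0I : E K γ₀.1 ∈ I := by
      have h1 := I.smul_mem ((eb K m).repr x γ₀)⁻¹ hy
      rwa [hy2, smul_smul, inv_mul_cancel₀ hγ₀, one_smul] at h1
    have hstep : ∀ γ δ : Fin (2 * m) → ZMod 2, E K γ ∈ I → B γ δ = 1 → E K δ ∈ I := by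
      intro γ δ hγ hB
      have h1 : ⁅E K (γ + δ), E K γ⁆ ∈ I := lie_mem_right K _ I _ _ hγ
      rw [lie_E, show γ + δ + γ = γ + γ + δ by abel, vv, zero_add, b, B_add, B_self, B_comm, hB,
        zero_add, if_neg (by decide), one_smul] at h1
      exact h1
    have hall : ∀ δ : Fin (2 * m) → ZMod 2, E K δ ∈ I := by
      intro δ
      by_cases hδ : δ = 0
      · rw [hδ, E_zero]
        exact I.zero_mem
      obtain ⟨ε, h1, h2⟩ := exists_B2 γ₀.1 δ γ₀.2 hδ
      exact hstep ε δ (hstep _ _ hγ0I h1) (by rw [B_comm]; exact h2)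
    rw [eq_top_iff]
    intro z _
    exact ind K I.zero_mem (fun x y hx hy => I.add_mem hx hy) (fun c x hx => I.smul_mem c hx) hall z
  · intro hab
    have hm' : 0 < 2 * m := by omega
    let i : Fin (2 * m) := ⟨0, hm'⟩
    obtain ⟨ε, hε⟩ := exists_B (du i) (du_ne i)
    have h1 : ⁅E K (du i), E K ε⁆ = 0 := hab.trivial _ _
    rw [lie_E, b, hε, if_neg (by decide), one_smul] at h1
    have hne : du i + ε ≠ 0 := by
      intro h
      have : ε = du i := by
        have h3 := vv ε
        rw [← h] at h3
        exact add_right_cancel h3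
      rw [this, B_self] at hε
      exact absurd hε (by decide)
    rw [E_of K _ hne] at h1
    exact (eb K m).ne_zero _ h1

end lie

end Alg

/-! ## The absolute toral rank -/

open Alg Toral

section lift

variable (K : Type*) [Field K] (m : ℕ)

/-- the group algebra -/
abbrev GA : Type _ := AddMonoidAlgebra K (Fin (2 * m) → ZMod 2)

/-- restriction to the nonzero group elements -/
noncomputable def pr : GA K m →ₗ[K] LB K m :=
  (AddMonoidAlgebra.basis (Fin (2 * m) → ZMod 2) K).constr K (fun α => E K α)

variable {m}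

theorem pr_single (α : Fin (2 * m) → ZMod 2) (r : K) :
    pr K m (AddMonoidAlgebra.single α r) = r • E K α := by
  have h1 : (AddMonoidAlgebra.single α r : GA K m) =
      r • (AddMonoidAlgebra.basis (Fin (2 * m) → ZMod 2) K) α := by
    rw [AddMonoidAlgebra.basis_apply, AddMonoidAlgebra.smul_single, smul_eq_mul, mul_one]
  rw [h1, map_smul, pr, Module.Basis.constr_basis]

theorem pr_surj : Function.Surjective (pr K m) := by
  intro x
  induction x using ind K with
  | h0 => exact ⟨0, map_zero _⟩
  | ha x y hx hy =>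
    obtain ⟨a, rfl⟩ := hx
    obtain ⟨b, rfl⟩ := hy
    exact ⟨a + b, map_add _ _ _⟩
  | hs c x hx =>
    obtain ⟨a, rfl⟩ := hx
    exact ⟨c • a, map_smul _ _ _⟩
  | hE α => exact ⟨AddMonoidAlgebra.single α 1, by rw [pr_single, one_smul]⟩

theorem repr_pr (a : GA K m) (γ : NZ m) : (eb K m).repr (pr K m a) γ = a.coeff γ.1 := by
  induction a using AddMonoidAlgebra.induction_linear with
  | zero => simp
  | add x y hx hy => simp [hx, hy]
  | single α r =>
    rw [pr_single, map_smul, Finsupp.smul_apply, repr_E, smul_eq_mul,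
      AddMonoidAlgebra.coeff_single, Finsupp.single_apply]
    by_cases h : α = γ.1
    · rw [if_pos h, if_pos h, mul_one]
    · rw [if_neg h, if_neg h, mul_zero]

theorem pr_ker (a : GA K m) (h : pr K m a = 0) : ∃ c : K, a = algebraMap K (GA K m) c := by
  refine ⟨a.coeff 0, ?_⟩
  rw [AddMonoidAlgebra.coe_algebraMap]
  apply AddMonoidAlgebra.ext
  ext γ
  rw [Function.comp_apply, AddMonoidAlgebra.coeff_single, Finsupp.single_apply]
  by_cases hγ : γ = 0
  · subst hγ
    rw [if_pos rfl]
    rfl
  · have := repr_pr K a ⟨γ, hγ⟩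
    rw [h, map_zero, Finsupp.zero_apply] at this
    rw [if_neg (Ne.symm hγ), ← this]

theorem pr_one : pr K m 1 = 0 := by
  rw [AddMonoidAlgebra.one_def, pr_single, E_zero, smul_zero]

/-- the lift of `ad e_α` -/
noncomputable def dL (α : Fin (2 * m) → ZMod 2) : GA K m →ₗ[K] GA K m :=
  (AddMonoidAlgebra.basis (Fin (2 * m) → ZMod 2) K).constr K
    (fun γ => AddMonoidAlgebra.single (α + γ) (b K α γ))

theorem dL_single (α γ : Fin (2 * m) → ZMod 2) (r : K) :
    dL K α (AddMonoidAlgebra.single γ r) = AddMonoidAlgebra.single (α + γ) (r * b K α γ) := by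
  have h1 : (AddMonoidAlgebra.single γ r : GA K m) =
      r • (AddMonoidAlgebra.basis (Fin (2 * m) → ZMod 2) K) γ := by
    rw [AddMonoidAlgebra.basis_apply, AddMonoidAlgebra.smul_single, smul_eq_mul, mul_one]
  rw [h1, map_smul, dL, Module.Basis.constr_basis, AddMonoidAlgebra.smul_single, smul_eq_mul]

variable [CharP K 2]

theorem dL_leibniz (α : Fin (2 * m) → ZMod 2) (x y : GA K m) :
    dL K α (x * y) = x • dL K α y + y • dL K α x := by
  simp only [smul_eq_mul]
  induction x using AddMonoidAlgebra.induction_linear with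
  | zero => simp
  | add x x' hx hx' =>
    simp only [add_mul, map_add, hx, hx', mul_add]
    abel
  | single γ r =>
    induction y using AddMonoidAlgebra.induction_linear with
    | zero => simp
    | add y y' hy hy' =>
      simp only [add_mul, map_add, hy, hy', mul_add]
      abel
    | single δ s =>
      rw [AddMonoidAlgebra.single_mul_single, dL_single, dL_single, dL_single,
        AddMonoidAlgebra.single_mul_single, AddMonoidAlgebra.single_mul_single,
        show γ + (α + δ) = α + (γ + δ) by abel, show δ + (α + γ) = α + (γ + δ) by abel,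
        ← AddMonoidAlgebra.single_add, b_addR]
      congr 1
      ring

/-- the derivation lifting `ad e_α` -/
noncomputable def dD (α : Fin (2 * m) → ZMod 2) : Derivation K (GA K m) (GA K m) :=
  Derivation.mk' (dL K α) (dL_leibniz K α)

theorem dD_lift (α : Fin (2 * m) → ZMod 2) (a : GA K m) :
    pr K m (dD K α a) = ⁅E K α, pr K m a⁆ := by
  change pr K m (dL K α a) = _
  induction a using AddMonoidAlgebra.induction_linear with
  | zero => simp
  | add x y hx hy => simp only [map_add, hx, hy, lie_add]
  | single γ r =>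
    rw [dL_single, pr_single, pr_single, lie_smul, lie_E, smul_smul]

variable (m) in
/-- endomorphisms which lift to derivations of the group algebra -/
def liftable : Submodule K (Module.End K (LB K m)) where
  carrier := {F | ∃ D : Derivation K (GA K m) (GA K m), ∀ a, pr K m (D a) = F (pr K m a)}
  zero_mem' := ⟨0, by simp⟩
  add_mem' := by
    rintro F G ⟨D, hD⟩ ⟨D', hD'⟩
    exact ⟨D + D', fun a => by simp [hD, hD']⟩
  smul_mem' := by
    rintro c F ⟨D, hD⟩
    exact ⟨c • D, fun a => by simp [hD]⟩

theorem ad_liftable (x : LB K m) : LieAlgebra.ad K (LB K m) x ∈ liftable K m := by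
  induction x using ind K with
  | h0 => rw [map_zero]; exact Submodule.zero_mem _
  | ha x y hx hy => rw [map_add]; exact Submodule.add_mem _ hx hy
  | hs c x hx => rw [map_smul]; exact Submodule.smul_mem _ _ hx
  | hE α => exact ⟨dD K α, dD_lift K α⟩

theorem sq_liftable (F : Module.End K (LB K m)) (hF : F ∈ liftable K m) : F * F ∈ liftable K m := by
  obtain ⟨D, hD⟩ := hF
  exact ⟨sqDer D, fun a => by rw [sqDer_apply, hD, hD, Module.End.mul_apply]⟩

omit [CharP K 2] in
theorem comm_liftable (F G : Module.End K (LB K m)) (hF : F ∈ liftable K m)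
    (hG : G ∈ liftable K m) : F * G - G * F ∈ liftable K m := by
  obtain ⟨D, hD⟩ := hF
  obtain ⟨D', hD'⟩ := hG
  exact ⟨⁅D, D'⁆, fun a => by
    rw [Derivation.commutator_apply, map_sub, hD, hD', hD', hD, LinearMap.sub_apply,
      Module.End.mul_apply, Module.End.mul_apply]⟩

/-- the augmentation -/
noncomputable def eps : GA K m →ₐ[K] K :=
  AddMonoidAlgebra.lift K K (Fin (2 * m) → ZMod 2) 1

omit [CharP K 2] in
theorem eps_single (γ : Fin (2 * m) → ZMod 2) (r : K) :
    eps K (AddMonoidAlgebra.single γ r) = r := by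
  rw [eps, AddMonoidAlgebra.lift_single]
  simp

theorem sq_eps (a : GA K m) : a * a = algebraMap K (GA K m) (eps K a * eps K a) := by
  induction a using AddMonoidAlgebra.induction_linear with
  | zero => simp
  | add x y hx hy =>
    rw [map_add, show (x + y) * (x + y) = x * x + y * y + (x * y + x * y) by ring,
      addself K (x * y), hx, hy, ← map_add, add_zero]
    congr 1
    have := addself K (eps K x * eps K y)
    linear_combination -this
  | single γ r =>
    rw [AddMonoidAlgebra.single_mul_single, vv, eps_single, AddMonoidAlgebra.coe_algebraMap]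
    rfl

omit [CharP K 2] in
/-- the group elements of the basis generate modulo the square of the augmentation ideal -/
theorem gen (a : GA K m) : ∃ c : K, ∃ x ∈ Submodule.span K (Set.range fun i : Fin (2 * m) =>
    (AddMonoidAlgebra.single (Pi.single i 1) 1 : GA K m)),
      ∃ y ∈ (RingHom.ker (eps K : GA K m →ₐ[K] K)) ^ 2, a = algebraMap K (GA K m) c + x + y := by
  classical
  -- group elements
  have hgr : ∀ s : Finset (Fin (2 * m)), ∃ c : K, ∃ x ∈ Submodule.span K
      (Set.range fun i : Fin (2 * m) => (AddMonoidAlgebra.single (Pi.single i 1) 1 : GA K m)),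
      ∃ y ∈ (RingHom.ker (eps K : GA K m →ₐ[K] K)) ^ 2,
      (AddMonoidAlgebra.single (∑ i ∈ s, Pi.single i 1) 1 : GA K m) =
        algebraMap K (GA K m) c + x + y := by
    intro s
    induction s using Finset.induction_on with
    | empty =>
      refine ⟨1, 0, Submodule.zero_mem _, 0, Ideal.zero_mem _, ?_⟩
      rw [Finset.sum_empty, map_one, add_zero, add_zero, AddMonoidAlgebra.one_def]
    | insert i s hi ih =>
      obtain ⟨c, x, hx, y, hy, h⟩ := ih
      rw [Finset.sum_insert hi]
      obtain ⟨u, hu⟩ : ∃ u, u = (AddMonoidAlgebra.single (∑ i ∈ s, Pi.single i 1) 1 : GA K m) :=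
        ⟨_, rfl⟩
      obtain ⟨v, hv⟩ : ∃ v, v = (AddMonoidAlgebra.single (Pi.single i 1) 1 : GA K m) := ⟨_, rfl⟩
      have e1 : (AddMonoidAlgebra.single (Pi.single i 1 + ∑ i ∈ s, Pi.single i 1) 1 : GA K m) =
          v * u := by
        rw [hu, hv, AddMonoidAlgebra.single_mul_single, one_mul]
      rw [← hu] at h
      have hu1 : u - 1 ∈ RingHom.ker (eps K : GA K m →ₐ[K] K) := by
        rw [RingHom.mem_ker, map_sub, map_one, hu, eps_single, sub_self]
      have hv1 : v - 1 ∈ RingHom.ker (eps K : GA K m →ₐ[K] K) := by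
        rw [RingHom.mem_ker, map_sub, map_one, hv, eps_single, sub_self]
      refine ⟨c - 1, x + v, Submodule.add_mem _ hx (Submodule.subset_span ⟨i, hv.symm⟩),
        y + (v - 1) * (u - 1), Ideal.add_mem _ hy ?_, ?_⟩
      · rw [pow_two]
        exact Ideal.mul_mem_mul hv1 hu1
      · rw [e1, map_sub, map_one]
        linear_combination h
  have hone : ∀ γ : Fin (2 * m) → ZMod 2, ∃ s : Finset (Fin (2 * m)),
      γ = ∑ i ∈ s, Pi.single i 1 := by
    intro γ
    refine ⟨Finset.univ.filter (fun i => γ i = 1), ?_⟩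
    funext j
    rw [Finset.sum_apply]
    rcases z2 (γ j) with h | h
    · rw [h, Finset.sum_eq_zero]
      intro i hi
      rw [Finset.mem_filter] at hi
      rw [Pi.single_apply, if_neg]
      rintro rfl
      rw [h] at hi
      exact absurd hi.2 (by decide)
    · rw [h, Finset.sum_eq_single j]
      · rw [Pi.single_eq_same]
      · intro i _ hij
        rw [Pi.single_apply, if_neg (Ne.symm hij)]
      · intro hj
        exfalso
        apply hj
        rw [Finset.mem_filter]
        exact ⟨Finset.mem_univ _, h⟩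
  induction a using AddMonoidAlgebra.induction_linear with
  | zero => exact ⟨0, 0, Submodule.zero_mem _, 0, Ideal.zero_mem _, by simp⟩
  | add a a' ha ha' =>
    obtain ⟨c, x, hx, y, hy, h⟩ := ha
    obtain ⟨c', x', hx', y', hy', h'⟩ := ha'
    refine ⟨c + c', x + x', Submodule.add_mem _ hx hx', y + y', Ideal.add_mem _ hy hy', ?_⟩
    rw [h, h', map_add]
    ring
  | single γ r =>
    obtain ⟨s, hs⟩ := hone γ
    obtain ⟨c, x, hx, y, hy, h⟩ := hgr s
    refine ⟨r * c, r • x, Submodule.smul_mem _ _ hx, algebraMap K (GA K m) r * y,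
      Ideal.mul_mem_left _ _ hy, ?_⟩
    have e : (AddMonoidAlgebra.single γ r : GA K m) =
        algebraMap K (GA K m) r * AddMonoidAlgebra.single (∑ i ∈ s, Pi.single i 1) 1 := by
      rw [← hs, ← Algebra.smul_def, AddMonoidAlgebra.smul_single, smul_eq_mul, mul_one]
    rw [e, h, Algebra.smul_def, map_mul]
    ring

/-- the bound for spaces of liftable endomorphisms with a spanning set of common eigenvectors -/
theorem bound (T : Submodule K (Module.End K (LB K m))) (hT : T ≤ liftable K m)
    (S : Set (LB K m)) (hS : Submodule.span K S = ⊤)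
    (heig : ∀ F ∈ T, ∀ s ∈ S, ∃ c : K, F s = c • s) : Module.finrank K T ≤ 2 * m := by
  have : Module.Finite K (GA K m) :=
    Module.Finite.of_basis (AddMonoidAlgebra.basis (Fin (2 * m) → ZMod 2) K)
  refine toral_bound (pr K m) (pr_surj K) (pr_one K) (pr_ker K) (RingHom.ker (eps K)) ?_ _ (gen K) T
    (fun F hF => hT hF) S hS heig
  intro a ha
  rw [RingHom.mem_ker] at ha
  rw [sq_eps, ha, mul_zero, map_zero]

end lift

section basechange

variable (K : Type*) [Field K] [CharP K 2] (m : ℕ) (F : Type*) [Field F] [CharP F 2] [Algebra K F]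

/-- extension of scalars for endomorphisms -/
noncomputable def scal : Module.End K (LB K m) →+* Module.End F (LB F m) :=
  ((Matrix.toLinAlgEquiv (eb F m)).toAlgHom.toRingHom.comp
    (algebraMap K F).mapMatrix).comp (LinearMap.toMatrixAlgEquiv (eb K m)).toAlgHom.toRingHom

omit [CharP K 2] [CharP F 2] in
theorem scal_apply (f : Module.End K (LB K m)) :
    scal K m F f = Matrix.toLinAlgEquiv (eb F m)
      ((LinearMap.toMatrixAlgEquiv (eb K m) f).map (algebraMap K F)) := rfl

omit [CharP K 2] [CharP F 2] in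
theorem scal_smul (c : K) (f : Module.End K (LB K m)) :
    scal K m F (c • f) = algebraMap K F c • scal K m F f := by
  have e : (c • LinearMap.toMatrixAlgEquiv (eb K m) f).map (algebraMap K F) =
      algebraMap K F c • (LinearMap.toMatrixAlgEquiv (eb K m) f).map (algebraMap K F) := by
    ext i j
    simp
  rw [scal_apply, scal_apply, map_smul, e, map_smul]

omit [CharP K 2] [CharP F 2] in
theorem scal_eb (f : Module.End K (LB K m)) (γ δ : NZ m) :
    (eb F m).repr (scal K m F f (eb F m γ)) δ =
      algebraMap K F ((eb K m).repr (f (eb K m γ)) δ) := by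
  have h1 := LinearMap.toMatrixAlgEquiv_apply (eb F m) (scal K m F f) δ γ
  rw [← h1, scal_apply, LinearMap.toMatrixAlgEquiv_toLinAlgEquiv, Matrix.map_apply,
    LinearMap.toMatrixAlgEquiv_apply]

theorem scal_ad (α : Fin (2 * m) → ZMod 2) :
    scal K m F (LieAlgebra.ad K (LB K m) (E K α)) = LieAlgebra.ad F (LB F m) (E F α) := by
  apply (eb F m).ext
  intro γ
  apply (eb F m).repr.injective
  ext δ
  rw [scal_eb, LieAlgebra.ad_apply, LieAlgebra.ad_apply, ← E_of', ← E_of', lie_E, lie_E, map_smul,
    map_smul, Finsupp.smul_apply, Finsupp.smul_apply, repr_E, repr_E, smul_eq_mul, smul_eq_mul,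
    map_mul, b, b]
  split_ifs <;> simp

/-- elements of the 2-envelope become liftable -/
theorem scal_env (f : Module.End K (LB K m)) (hf : f ∈ twoEnvelope K (LB K m)) :
    scal K m F f ∈ liftable F m := by
  let M : Submodule K (Module.End K (LB K m)) :=
    { carrier := {f | scal K m F f ∈ liftable F m}
      zero_mem' := by
        change scal K m F 0 ∈ liftable F m
        rw [map_zero]
        exact Submodule.zero_mem _
      add_mem' := by
        intro f g hf hg
        change scal K m F (f + g) ∈ liftable F m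
        rw [map_add]
        exact Submodule.add_mem _ hf hg
      smul_mem' := by
        intro c f hf
        change scal K m F (c • f) ∈ liftable F m
        rw [scal_smul]
        exact Submodule.smul_mem _ _ hf }
  have hM : M ∈ {M : Submodule K (Module.End K (LB K m)) |
      (∀ x : LB K m, LieAlgebra.ad K (LB K m) x ∈ M) ∧ (∀ f ∈ M, ∀ g ∈ M, f * g - g * f ∈ M) ∧
        ∀ f ∈ M, f * f ∈ M} := by
    refine ⟨?_, ?_, ?_⟩
    · intro x
      induction x using ind K with
      | h0 => rw [map_zero]; exact Submodule.zero_mem _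
      | ha x y hx hy => rw [map_add]; exact Submodule.add_mem _ hx hy
      | hs c x hx => rw [map_smul]; exact Submodule.smul_mem _ _ hx
      | hE α =>
        change scal K m F _ ∈ liftable F m
        rw [scal_ad]
        exact ad_liftable F _
    · intro f hf g hg
      change scal K m F _ ∈ liftable F m
      rw [map_sub, map_mul, map_mul]
      exact comm_liftable F _ _ hf hg
    · intro f hf
      change scal K m F _ ∈ liftable F m
      rw [map_mul]
      exact sq_liftable F _ hf
  exact (sInf_le hM : twoEnvelope K (LB K m) ≤ M) hf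

omit [CharP K 2] [CharP F 2] in
theorem scal_li {ι : Type*} (f : ι → Module.End K (LB K m)) (hf : LinearIndependent K f) :
    LinearIndependent F (fun i => scal K m F (f i)) := by
  rw [linearIndependent_iff']
  intro s g hg i hi
  rw [← Module.forall_dual_apply_eq_zero_iff K]
  intro φ
  have h1 : ∑ i ∈ s, φ (g i) • f i = 0 := by
    apply (eb K m).ext
    intro γ
    apply (eb K m).repr.injective
    ext δ
    have h2 := congrArg (fun u => (eb F m).repr (u (eb F m γ)) δ) hg
    simp only [LinearMap.sum_apply, LinearMap.smul_apply, map_sum, map_smul, Finsupp.finsetSum_apply,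
      Finsupp.smul_apply, scal_eb, LinearMap.zero_apply, map_zero, Finsupp.zero_apply,
      smul_eq_mul] at h2 ⊢
    have h3 := congrArg φ h2
    rw [map_sum, map_zero] at h3
    rw [← h3]
    apply Finset.sum_congr rfl
    intro i _
    rw [mul_comm (g i), ← Algebra.smul_def, map_smul, smul_eq_mul, mul_comm]
  exact (linearIndependent_iff'.1 hf) s (fun i => φ (g i)) h1 i hi

omit [CharP K 2] [CharP F 2] in
theorem scal_semisimple [PerfectField K] (f : Module.End K (LB K m)) (hf : f.IsSemisimple) :
    (scal K m F f).IsSemisimple := by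
  have h1 : (minpoly K f).Separable :=
    PerfectField.separable_iff_squarefree.2 hf.minpoly_squarefree
  have h2 : ((minpoly K f).map (algebraMap K F)).Separable := h1.map
  apply Module.End.isSemisimple_of_squarefree_aeval_eq_zero h2.squarefree
  have h3 : ∀ p : Polynomial K, Polynomial.aeval (scal K m F f) (p.map (algebraMap K F)) =
      scal K m F (Polynomial.aeval f p) := by
    intro p
    induction p using Polynomial.induction_on' with
    | add p q hp hq => rw [Polynomial.map_add, map_add, map_add, map_add, hp, hq]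
    | monomial k c =>
      rw [Polynomial.map_monomial, Polynomial.aeval_monomial, Polynomial.aeval_monomial,
        ← Algebra.smul_def, ← Algebra.smul_def, scal_smul, map_pow]
  rw [h3, minpoly.aeval, map_zero]

end basechange

/-- every torus of the 2-envelope has dimension at most `2m` -/
theorem toralRank (K : Type*) [Field K] [CharP K 2] [PerfectField K] (m : ℕ)
    (T : Submodule K (Module.End K (LB K m))) (hT : IsTorus K (LB K m) T) :
    Module.finrank K T ≤ 2 * m := by
  obtain ⟨hT1, hT2, hT3⟩ := hT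
  let F := AlgebraicClosure K
  have : CharP F 2 := charP_of_injective_algebraMap (algebraMap K F).injective 2
  -- common eigenvectors
  let Φ : T → Module.End F (LB F m) := fun f => scal K m F f.1
  let S : Set (LB F m) := {s | ∀ f : T, ∃ c : F, Φ f s = c • s}
  have hS : Submodule.span F S = ⊤ := by
    have h1 := Module.End.iSup_iInf_maxGenEigenspace_eq_top_of_iSup_maxGenEigenspace_eq_top_of_commute
      Φ (by
        intro f g _
        change scal K m F f.1 * scal K m F g.1 = scal K m F g.1 * scal K m F f.1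
        rw [← map_mul, ← map_mul, hT2 _ f.2 _ g.2])
      (fun f => Module.End.iSup_maxGenEigenspace_eq_top _)
    rw [eq_top_iff, ← h1]
    apply iSup_le
    intro χ x hx
    apply Submodule.subset_span
    intro f
    refine ⟨χ f, ?_⟩
    rw [Submodule.mem_iInf] at hx
    have h2 := hx f
    have h3 : (Φ f).IsFinitelySemisimple :=
      (scal_semisimple K m F f.1 (hT3 _ f.2)).isFinitelySemisimple
    rw [h3.maxGenEigenspace_eq_eigenspace, Module.End.mem_eigenspace_iff] at h2
    exact h2
  let T' : Submodule F (Module.End F (LB F m)) := Submodule.span F (Set.range Φ)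
  have hT' : T' ≤ liftable F m := by
    rw [Submodule.span_le]
    rintro _ ⟨f, rfl⟩
    exact scal_env K m F f.1 (hT1 f.2)
  have heig : ∀ G ∈ T', ∀ s ∈ S, ∃ c : F, G s = c • s := by
    intro G hG s hs
    induction hG using Submodule.span_induction with
    | mem x hx =>
      obtain ⟨f, rfl⟩ := hx
      exact hs f
    | zero => exact ⟨0, by simp⟩
    | add x y _ _ hx hy =>
      obtain ⟨c, hc⟩ := hx
      obtain ⟨d, hd⟩ := hy
      exact ⟨c + d, by rw [LinearMap.add_apply, hc, hd, add_smul]⟩
    | smul a x _ hx =>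
      obtain ⟨c, hc⟩ := hx
      exact ⟨a * c, by rw [LinearMap.smul_apply, hc, smul_smul]⟩
  have h1 := bound F T' hT' S hS heig
  refine le_trans ?_ h1
  let bs := Module.finBasis K T
  have h2 : LinearIndependent K (fun i => (bs i).1) := by
    have := bs.linearIndependent.map' T.subtype (Submodule.ker_subtype T)
    exact this
  have h3 := scal_li K m F _ h2
  have h4 : LinearIndependent F (fun i => (⟨scal K m F (bs i).1, Submodule.subset_span ⟨bs i, rfl⟩⟩ :
      T')) := by
    apply LinearIndependent.of_comp T'.subtype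
    exact h3
  have h5 := h4.fintype_card_le_finrank
  rwa [Fintype.card_fin] at h5

/-! ## The thin decomposition -/

section thin

variable (K : Type*) [Field K] [CharP K 2] {m : ℕ}

/-- the torus elements -/
noncomputable def tt (i : Fin (2 * m)) : Module.End K (LB K m) :=
  LieAlgebra.ad K (LB K m) (E K (du i)) * LieAlgebra.ad K (LB K m) (E K (du i))

theorem tt_E (i : Fin (2 * m)) (γ : Fin (2 * m) → ZMod 2) :
    tt K i (E K γ) = if γ i = 0 then 0 else E K γ := by
  rw [tt, ad_sq, b, B_du]
  split_ifs <;> simp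

omit [CharP K 2] in
/-- diagonal endomorphisms commute -/
theorem diag_comm (f g : Module.End K (LB K m)) (hf : ∀ α, ∃ μ : K, f (eb K m α) = μ • eb K m α)
    (hg : ∀ α, ∃ μ : K, g (eb K m α) = μ • eb K m α) : f * g = g * f := by
  apply (eb K m).ext
  intro α
  obtain ⟨μ, hμ⟩ := hf α
  obtain ⟨ν, hν⟩ := hg α
  rw [Module.End.mul_apply, Module.End.mul_apply, hμ, hν, map_smul, map_smul, hμ, hν, smul_smul,
    smul_smul, mul_comm]

omit [CharP K 2] in
theorem diag_semisimple (f : Module.End K (LB K m))
    (hf : ∀ α, ∃ μ : K, f (eb K m α) = μ • eb K m α) : f.IsSemisimple := by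
  classical
  choose μ hμ using hf
  let s : Finset K := Finset.univ.image μ
  apply Module.End.isSemisimple_of_squarefree_aeval_eq_zero
    (p := ∏ a ∈ s, (Polynomial.X - Polynomial.C a))
  · apply Polynomial.Separable.squarefree
    rw [Polynomial.separable_prod_X_sub_C_iff']
    intro x _ y _ hxy
    exact hxy
  · apply (eb K m).ext
    intro α
    rw [LinearMap.zero_apply]
    have hα : μ α ∈ s := Finset.mem_image_of_mem _ (Finset.mem_univ _)
    rw [← Finset.prod_erase_mul s _ hα, map_mul, Module.End.mul_apply]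
    have : (Polynomial.aeval f (Polynomial.X - Polynomial.C (μ α))) (eb K m α) = 0 := by
      simp [hμ]
    rw [this, map_zero]

theorem span_diag (f : Module.End K (LB K m))
    (hf : f ∈ Submodule.span K (Set.range (tt K : Fin (2 * m) → _))) :
    ∀ α, ∃ μ : K, f (eb K m α) = μ • eb K m α := by
  intro α
  induction hf using Submodule.span_induction with
  | mem f hf =>
    obtain ⟨i, rfl⟩ := hf
    rw [← E_of', tt_E]
    split_ifs
    · exact ⟨0, by simp⟩
    · exact ⟨1, by simp⟩
  | zero => exact ⟨0, by simp⟩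
  | add f g _ _ hf hg =>
    obtain ⟨μ, hμ⟩ := hf
    obtain ⟨ν, hν⟩ := hg
    exact ⟨μ + ν, by rw [LinearMap.add_apply, hμ, hν, add_smul]⟩
  | smul a f _ hf =>
    obtain ⟨μ, hμ⟩ := hf
    exact ⟨a * μ, by rw [LinearMap.smul_apply, hμ, smul_smul]⟩

theorem repr_lie_self (x : LB K m) (γ : NZ m) : (eb K m).repr ⁅x, eb K m γ⁆ γ = 0 := by
  induction x using ind K with
  | h0 => simp
  | ha x y hx hy => rw [add_lie, map_add, Finsupp.add_apply, hx, hy, add_zero]
  | hs c x hx => rw [smul_lie, map_smul, Finsupp.smul_apply, hx, smul_zero]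
  | hE α =>
    rw [← E_of', lie_E, map_smul, Finsupp.smul_apply, repr_E]
    by_cases h : α + γ.1 = γ.1
    · have : α = 0 := by simpa using h
      rw [this, b_zeroL, zero_smul]
    · rw [if_neg h, smul_zero]

variable (m) in
/-- the thin decomposition -/
noncomputable def thin [PerfectField K] : ThinDecomposition K (LB K m) (2 * m) where
  t := tt K
  e := eb K m
  linearIndependent := by
    rw [linearIndependent_iff']
    intro s g hg i hi
    obtain ⟨v, hv⟩ : ∃ v : Fin (2 * m) → ZMod 2, v = Pi.single i 1 := ⟨_, rfl⟩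
    have hvi : v i = 1 := by rw [hv, Pi.single_eq_same]
    have hvj : ∀ j, j ≠ i → v j = 0 := fun j hj => by rw [hv, Pi.single_eq_of_ne hj]
    have hv0 : v ≠ 0 := by
      intro h
      rw [h, Pi.zero_apply] at hvi
      exact absurd hvi (by decide)
    have h1 := congrArg (fun u => (eb K m).repr (u (E K v)) ⟨v, hv0⟩) hg
    simp only [LinearMap.sum_apply, LinearMap.smul_apply, map_sum, map_smul,
      Finsupp.finsetSum_apply, Finsupp.smul_apply, tt_E, LinearMap.zero_apply, map_zero,
      Finsupp.zero_apply] at h1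
    rw [Finset.sum_eq_single i] at h1
    · rw [hvi, if_neg (by decide), repr_E, if_pos rfl, smul_eq_mul, mul_one] at h1
      exact h1
    · intro j _ hj
      rw [hvj j hj, if_pos rfl]
      simp
    · intro h
      exact absurd hi h
  isTorus := by
    refine ⟨?_, ?_, ?_⟩
    · rw [Submodule.span_le]
      rintro _ ⟨i, rfl⟩
      rw [SetLike.mem_coe, twoEnvelope, Submodule.mem_sInf]
      intro M hM
      exact hM.2.2 _ (hM.1 _)
    · intro f hf g hg
      exact diag_comm K f g (span_diag K f hf) (span_diag K g hg)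
    · intro f hf
      exact diag_semisimple K f (span_diag K f hf)
  sq := by
    intro i
    apply (eb K m).ext
    intro γ
    rw [← E_of', Module.End.mul_apply, tt_E]
    split_ifs with h
    · rw [map_zero]
    · rw [tt_E, if_neg h]
  disjoint := by
    intro x hx
    apply (eb K m).ext
    intro γ
    obtain ⟨μ, hμ⟩ := span_diag K _ hx γ
    rw [LinearMap.zero_apply, hμ]
    have h1 := repr_lie_self K x γ
    rw [LieAlgebra.ad_apply] at hμ
    rw [hμ, map_smul, Finsupp.smul_apply, Module.Basis.repr_self, Finsupp.single_eq_same,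
      smul_eq_mul, mul_one] at h1
    rw [h1, zero_smul]
  toralRank := fun T hT => toralRank K m T hT
  weight := by
    intro i α
    rw [← E_of']
    exact tt_E K i α.1

/-- a graded subalgebra of dimension seven has a central basis vector -/
theorem central [PerfectField K] (M : LieSubalgebra K (LB K m)) (hM : IsGraded (thin K m) M)
    (h7 : Module.finrank K M = 7) : ∃ z : M, z ≠ 0 ∧ ∀ x : M, ⁅x, z⁆ = 0 := by
  classical
  obtain ⟨S, hS⟩ := hM
  change M.toSubmodule = Submodule.span K (eb K m '' S) at hS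
  have hmem : ∀ x : LB K m, x ∈ M ↔ x ∈ Submodule.span K (eb K m '' S) := by
    intro x
    rw [← hS]
    rfl
  have hmemE : ∀ α : NZ m, eb K m α ∈ M ↔ α ∈ S := by
    intro α
    rw [hmem]
    rw [(eb K m).mem_span_image, Module.Basis.repr_self, Finsupp.support_single _ one_ne_zero]
    simp
  let S' : Finset (Fin (2 * m) → ZMod 2) := S.toFinset.image Subtype.val
  have hS' : ∀ α, α ∈ S' ↔ ∃ h : α ≠ 0, (⟨α, h⟩ : NZ m) ∈ S := by
    intro α
    simp only [S', Finset.mem_image, Set.mem_toFinset]
    constructor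
    · rintro ⟨β, hβ, rfl⟩
      exact ⟨β.2, hβ⟩
    · rintro ⟨h, h'⟩
      exact ⟨_, h', rfl⟩
  have hcard : S'.card = 7 := by
    rw [Finset.card_image_of_injective _ Subtype.val_injective]
    have h1 : Module.finrank K (Submodule.span K (eb K m '' S)) = 7 := by
      rw [← hS]
      exact h7
    have h2 : LinearIndependent K (fun x : (eb K m '' S) => (x : LB K m)) :=
      ((eb K m).linearIndependent.linearIndepOn S).id_image
    have h3 := finrank_span_set_eq_card h2
    rw [h1] at h3
    rw [h3]
    have h4 : (eb K m '' S).toFinset = S.toFinset.image (eb K m) := by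
      ext x
      simp
    rw [h4, Finset.card_image_of_injective _ (eb K m).injective]
  obtain ⟨d, hd, hdx⟩ := Seven.seven (V := Fin (2 * m) → ZMod 2) B B_add B_comm B_self S'
    (by
      rw [hS']
      rintro ⟨h, -⟩
      exact h rfl)
    (by
      intro a ha b' hb hab
      rw [hS'] at ha hb ⊢
      obtain ⟨ha0, ha⟩ := ha
      obtain ⟨hb0, hb⟩ := hb
      have h1 : ⁅eb K m ⟨a, ha0⟩, eb K m ⟨b', hb0⟩⁆ ∈ M :=
        M.lie_mem ((hmemE _).2 ha) ((hmemE _).2 hb)
      rw [← E_of', ← E_of', lie_E, b, if_neg hab, one_smul] at h1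
      have hne : a + b' ≠ 0 := by
        intro h
        apply hab
        have h3 : a = b' := by
          have h4 := vv b'
          rw [← h] at h4
          exact (add_right_cancel h4).symm
        rw [h3, B_self]
      rw [E_of K _ hne] at h1
      exact ⟨hne, (hmemE _).1 h1⟩) hcard
  obtain ⟨hd0, hdS⟩ := (hS' d).1 hd
  refine ⟨⟨eb K m ⟨d, hd0⟩, (hmemE _).2 hdS⟩, ?_, ?_⟩
  · intro h
    exact (eb K m).ne_zero ⟨d, hd0⟩ (congrArg Subtype.val h)
  · rintro ⟨x, hx⟩
    apply Subtype.ext
    change ⁅x, eb K m ⟨d, hd0⟩⁆ = 0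
    rw [hmem] at hx
    induction hx using Submodule.span_induction with
    | mem x hx =>
      obtain ⟨α, hα, rfl⟩ := hx
      have h1 := hdx α.1 ((hS' _).2 ⟨α.2, hα⟩)
      rw [← E_of', ← E_of', lie_E, b_comm, b, h1, if_pos rfl, zero_smul]
    | zero => rw [zero_lie]
    | add x y _ _ hx hy => rw [add_lie, hx, hy, add_zero]
    | smul a x _ hx => rw [smul_lie, hx, smul_zero]

end thin

section centre

/-- a simple Lie algebra has no nonzero central element -/
theorem simple_centre {k N : Type*} [Field k] [LieRing N] [LieAlgebra k N]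
    (hN : LieAlgebra.IsSimple k N) (z : N) (hz : ∀ x : N, ⁅x, z⁆ = 0) : z = 0 := by
  have h1 : z ∈ LieAlgebra.center k N := by
    rw [LieModule.mem_maxTrivSubmodule]
    exact hz
  rcases hN.eq_bot_or_eq_top (LieAlgebra.center k N) with h | h
  · rw [h] at h1
    exact (LieSubmodule.mem_bot z).1 h1
  · exfalso
    apply hN.non_abelian
    rw [LieAlgebra.isLieAbelian_iff_center_eq_top k]
    exact h

open scoped TensorProduct

/-- extension of scalars preserves the absence of a centre -/
theorem tensor_centre {k K N : Type*} [Field k] [Field K] [Algebra k K] [LieRing N]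
    [LieAlgebra k N] [Module.Finite k N] (hN : ∀ z : N, (∀ x : N, ⁅x, z⁆ = 0) → z = 0)
    (w : K ⊗[k] N) (hw : ∀ x : K ⊗[k] N, ⁅x, w⁆ = 0) : w = 0 := by
  let φN : Module.Dual k K → (K ⊗[k] N →ₗ[k] N) := fun φ =>
    (TensorProduct.lid k N).toLinearMap ∘ₗ (LinearMap.rTensor N φ)
  have h1 : ∀ (φ : Module.Dual k K) (x : N) (v : K ⊗[k] N),
      φN φ ⁅(1 : K) ⊗ₜ[k] x, v⁆ = ⁅x, φN φ v⁆ := by
    intro φ x v
    induction v using TensorProduct.induction_on with
    | zero => simp
    | tmul a y =>
      rw [LieAlgebra.ExtendScalars.bracket_tmul, one_mul]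
      simp [φN]
    | add v v' hv hv' => rw [lie_add, map_add, map_add, lie_add, hv, hv']
  have h2 : ∀ φ : Module.Dual k K, φN φ w = 0 := by
    intro φ
    apply hN
    intro x
    rw [← h1, hw, map_zero]
  let bN := Module.finBasis k N
  have h3 : ∀ (φ : Module.Dual k K) (v : K ⊗[k] N) (j : Fin (Module.finrank k N)),
      bN.repr (φN φ v) j = φ ((bN.baseChange K).repr v j) := by
    intro φ v j
    induction v using TensorProduct.induction_on with
    | zero => simp
    | tmul a y => simp [φN, Module.Basis.baseChange_repr_tmul, mul_comm]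
    | add v v' hv hv' => simp only [map_add, Finsupp.add_apply, hv, hv']
  apply (bN.baseChange K).repr.injective
  ext j
  rw [map_zero, Finsupp.zero_apply, ← Module.forall_dual_apply_eq_zero_iff k]
  intro φ
  rw [← h3, h2, map_zero, Finsupp.zero_apply]

end centre

open scoped TensorProduct

theorem result (K : Type u) [Field K] [CharP K 2] [PerfectField K] [Algebra (ZMod 2) K]
    (m : ℕ) (hm : 2 ≤ m) :
    ∃ (L : Type u) (_ : LieRing L) (_ : LieAlgebra K L) (D : ThinDecomposition K L (2 * m)),
      LieAlgebra.IsSimple K L ∧ Module.finrank K L = 2 ^ (2 * m) - 1 ∧ 3 < Module.finrank K L ∧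
      (∀ M : LieSubalgebra K L, IsGraded D M → Module.finrank K M = 7 →
        (∃ z : M, z ≠ 0 ∧ ∀ x : M, ⁅x, z⁆ = 0) ∧ ¬ LieAlgebra.IsSimple K M) ∧
      ∀ (N : Type v) [LieRing N] [LieAlgebra (ZMod 2) N], LieAlgebra.IsSimple (ZMod 2) N →
        Module.finrank (ZMod 2) N = 7 → ∀ M : LieSubalgebra K L, IsGraded D M →
          IsEmpty (M ≃ₗ⁅K⁆ K ⊗[ZMod 2] N) := by
  have hfin : Module.finrank K (LB K m) = 2 ^ (2 * m) - 1 := by
    rw [Module.finrank_eq_card_basis (eb K m), Fintype.card_subtype_compl, Fintype.card_fun,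
      ZMod.card, Fintype.card_fin, Fintype.card_subtype_eq]
  have hcen : ∀ M : LieSubalgebra K (LB K m), IsGraded (thin K m) M → Module.finrank K M = 7 →
      ∃ z : M, z ≠ 0 ∧ ∀ x : M, ⁅x, z⁆ = 0 := central K
  refine ⟨LB K m, inferInstance, inferInstance, thin K m, simple K (by omega), hfin, ?_, ?_, ?_⟩
  · rw [hfin]
    have : 2 ^ 4 ≤ 2 ^ (2 * m) := Nat.pow_le_pow_right (by norm_num) (by omega)
    omega
  · intro M hM h7
    refine ⟨hcen M hM h7, fun hs => ?_⟩
    obtain ⟨z, hz0, hz⟩ := hcen M hM h7
    exact hz0 (simple_centre hs z hz)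
  · intro N _ _ hN hN7 M hM
    refine ⟨fun e => ?_⟩
    have : Module.Finite (ZMod 2) N := Module.finite_of_finrank_pos (by omega)
    have h7 : Module.finrank K M = 7 := by
      rw [e.toLinearEquiv.finrank_eq, Module.finrank_baseChange, hN7]
    obtain ⟨z, hz0, hz⟩ := hcen M hM h7
    apply hz0
    apply e.injective
    rw [map_zero]
    apply tensor_centre (simple_centre hN)
    intro x
    have h1 := hz (e.symm x)
    have h2 := congrArg e h1
    rw [LieEquiv.map_lie, LieEquiv.apply_symm_apply, map_zero] at h2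
    exact h2

end Pool.Agent.Results.MP_9adac4_al.KaplanskyNoWH
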